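import Pool.Agent.R244.RP.Stmt
import Pool.Agent.R244.RP.Final
import Pool.Agent.R244.RP.A
import Pool.Agent.R244.RP.X
import Pool.Agent.R244.RP.DD
import Pool.Agent.R244.RP.E
import Pool.Agent.R244.RP.F

/-!
# MP_1d9d5b_an, Q1: the answer is NO

Every Riesz product `μ ∈ M₀(𝕋)` has natural spectrum on the Hardy space `H¹(𝕋)`: the spectrum of the
multiplier `T_μ f = μ * f` on `H¹(𝕋)` is the closure of `{μ̂(k) : k ≥ 0}`.
-/

set_option autoImplicit false

open MeasureTheory Filter Topology Pool.Agent.R244.RP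
open scoped Real

namespace Pool.Agent.Results.MP_1d9d5b_an.NaturalSpectrum

/-- For every Riesz product `μ` on the circle whose Fourier coefficients tend to 0, the multiplier
`T_μ` on `H¹(𝕋)` exists, is unique, and its spectrum is the closure of the set of the Fourier
coefficients `μ̂(k)`, `k ≥ 0`. -/
theorem result (μ : Measure (AddCircle (2 * π))) [IsFiniteMeasure μ] (n : ℕ → ℕ) (a : ℕ → ℂ)
    (h : IsRiesz μ n a) (h0 : Tendsto (fc μ) cofinite (𝓝 0)) :
    (∃! T : Hardy →L[ℂ] Hardy, IsMultiplier μ T) ∧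
      ∀ T : Hardy →L[ℂ] Hardy, IsMultiplier μ T →
        spectrum ℂ T = closure (Set.range fun k : ℕ => fc μ (k : ℤ)) :=
  ⟨stmX μ, fun T hT => main stmA (stmE stmL) stmF stmD stmR stmV μ n a h h0 T hT⟩

end Pool.Agent.Results.MP_1d9d5b_an.NaturalSpectrum
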